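import Pool.Agent.Helper20.P3F.St1

/-!
# Project P3F, module EVS3: both parts together
-/

set_option autoImplicit false

open MeasureTheory Set Filter Topology
open scoped ENNReal RealInnerProductSpace

namespace Pool.Agent.Helper75.P3F

open Pool.Agent.Helper20.RG Pool.Agent.Helper20.EQ Pool.Agent.Helper20.P3F
open Pool.Agent.Helper68.LM (Pl BB Bd Av HL ft fm DQ)
open Pool.Agent.Helper68.EP (elt GapP)
open Pool.Agent.Helper61.P3

theorem evs3_half (a b : ℝ≥0∞) (h : 1 ≤ a + b) :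
    ENNReal.ofReal (1 / 2) ≤ a ∨ ENNReal.ofReal (1 / 2) ≤ b := by
  by_contra hcon
  rw [not_or, not_le, not_le] at hcon
  have h1 := ENNReal.add_lt_add hcon.1 hcon.2
  rw [← ENNReal.ofReal_add (by norm_num) (by norm_num)] at h1
  norm_num at h1
  exact absurd h (not_le.2 h1)

theorem hEVS3 (hFEW : Pool.Agent.Helper20.P3F.StFEW) (hMANY : StMANY) (hHTS : StHTS) : StEVS3 := by
  intro φ τ A c hG hA hgap
  obtain ⟨κ, hκ, C₁, hC₁, h1⟩ := hMANY φ τ A c hG hA hgap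
  obtain ⟨C₂, hC₂, h2⟩ := hFEW φ τ A c hG hA hgap κ hκ
  refine ⟨C₁ + C₂, by linarith, ?_⟩
  intro R₀ f hR hf hf0
  have h3 := h1 R₀ f (by linarith) hf hf0
  have h4 := h2 R₀ f (by linarith) hf hf0
  have hpw : ∀ l : ℤ, (2 : ℝ) ^ ((3 : ℝ) * l) = (2 : ℝ) ^ (3 * l) := by
    intro l
    rw [← Real.rpow_intCast]
    push_cast
    rfl
  have hset : ∀ l : ℤ, volume {x | Gd R₀ l f x ∧ ∃ k : ℤ,
        ENNReal.ofReal ((2 : ℝ) ^ l) ≤ ∑' u : ℕ, (if 2 ≤ u then Ht c φ τ u k (fh l f) x else 0)} ≤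
      volume {x | Gd R₀ l f x ∧ ∃ k : ℤ,
        ENNReal.ofReal (1 / 2) ≤ ∑' u : ℕ, (if 2 ≤ u then HtM c φ τ κ u k l f x else 0)} +
      volume {x | Gd R₀ l f x ∧ ∃ k : ℤ,
        ENNReal.ofReal (1 / 2) ≤ ∑' u : ℕ, (if 2 ≤ u then HtF c φ τ κ u k l f x else 0)} := by
    intro l
    refine le_trans (measure_mono ?_) (measure_union_le _ _)
    rintro x ⟨hx, k, hk⟩
    have hpos : ENNReal.ofReal ((2 : ℝ) ^ l) ≠ 0 := by
      simp only [ne_eq, ENNReal.ofReal_eq_zero, not_le]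
      positivity
    have h5 : ∑' u : ℕ, (if 2 ≤ u then Ht c φ τ u k (fh l f) x else 0) ≤
        ENNReal.ofReal ((2 : ℝ) ^ l) *
          ((∑' u : ℕ, (if 2 ≤ u then HtM c φ τ κ u k l f x else 0)) +
          ∑' u : ℕ, (if 2 ≤ u then HtF c φ τ κ u k l f x else 0)) := by
      rw [← ENNReal.tsum_add, ← ENNReal.tsum_mul_left]
      refine ENNReal.tsum_le_tsum fun u => ?_
      split_ifs
      · rw [add_comm]
        exact hHTS φ τ c hG κ u f l k x hf hf0
      · exact zero_le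
    have h6 : (1 : ℝ≥0∞) ≤ (∑' u : ℕ, (if 2 ≤ u then HtM c φ τ κ u k l f x else 0)) +
          ∑' u : ℕ, (if 2 ≤ u then HtF c φ τ κ u k l f x else 0) := by
      have h7 := hk.trans h5
      by_contra hcon
      rw [not_le] at hcon
      have h8 := ENNReal.mul_lt_mul_right hpos ENNReal.ofReal_ne_top hcon
      rw [mul_one] at h8
      exact absurd h7 (not_le.2 h8)
    rcases evs3_half _ _ h6 with h | h
    · left
      exact ⟨hx, k, h⟩
    · right
      exact ⟨hx, k, h⟩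
  simp only [hpw]
  calc _ ≤ ∑' l : ℤ, ENNReal.ofReal ((2 : ℝ) ^ (3 * l)) *
        (volume {x | Gd R₀ l f x ∧ ∃ k : ℤ,
        ENNReal.ofReal (1 / 2) ≤ ∑' u : ℕ, (if 2 ≤ u then HtM c φ τ κ u k l f x else 0)} +
      volume {x | Gd R₀ l f x ∧ ∃ k : ℤ,
        ENNReal.ofReal (1 / 2) ≤ ∑' u : ℕ, (if 2 ≤ u then HtF c φ τ κ u k l f x else 0)}) := by
        refine ENNReal.tsum_le_tsum fun l => ?_
        gcongr
        exact hset l
    _ ≤ ENNReal.ofReal C₁ * (∫⁻ x, ENNReal.ofReal (f x) ^ (3 : ℝ)) +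
        ENNReal.ofReal C₂ * ∫⁻ x, ENNReal.ofReal (f x) ^ (3 : ℝ) := by
        refine le_trans (le_of_eq ?_) (add_le_add h3 h4)
        rw [← ENNReal.tsum_add]
        exact tsum_congr fun l => mul_add _ _ _
    _ = ENNReal.ofReal (C₁ + C₂) * ∫⁻ x, ENNReal.ofReal (f x) ^ (3 : ℝ) := by
        rw [← add_mul, ENNReal.ofReal_add (by linarith) (by linarith)]

end Pool.Agent.Helper75.P3F
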