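import Pool.Agent.Helper20.P3F.St1
import Pool.Agent.Helper14.EQ.M_PIG

/-!
# Project P3F, module HTS: the heights of `fh l f`
-/

set_option autoImplicit false

open MeasureTheory Set Filter Topology
open scoped ENNReal RealInnerProductSpace

namespace Pool.Agent.Helper75.P3F

open Pool.Agent.Helper20.RG Pool.Agent.Helper20.EQ Pool.Agent.Helper20.P3F
open Pool.Agent.Helper68.LM (Pl BB Bd Av HL ft fm DQ)
open Pool.Agent.Helper68.EP (elt GapP)
open Pool.Agent.Helper61.P3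

theorem hts_sum (a : ℤ → ℝ≥0∞) (l J₁ : ℤ) :
    ∑ J ∈ Finset.Icc (l - 1) J₁, a J ≤ ∑' n : ℕ, a (l - 1 + n) := by
  classical
  have hinj : Function.Injective (fun n : ℕ => l - 1 + (n : ℤ)) := by
    intro a b h
    simpa using h
  have hsub : Finset.Icc (l - 1) J₁ ⊆
      (Finset.range (J₁ - (l - 1) + 1).toNat).image (fun n : ℕ => l - 1 + (n : ℤ)) := by
    intro J hJ
    rw [Finset.mem_Icc] at hJ
    refine Finset.mem_image.2 ⟨(J - (l - 1)).toNat, Finset.mem_range.2 (by omega), ?_⟩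
    omega
  calc ∑ J ∈ Finset.Icc (l - 1) J₁, a J
      ≤ ∑ J ∈ (Finset.range (J₁ - (l - 1) + 1).toNat).image (fun n : ℕ => l - 1 + (n : ℤ)), a J :=
        Finset.sum_le_sum_of_subset hsub
    _ = ∑ n ∈ Finset.range (J₁ - (l - 1) + 1).toNat, a (l - 1 + n) :=
        Finset.sum_image (fun x _ y _ h => hinj h)
    _ ≤ ∑' n : ℕ, a (l - 1 + n) := ENNReal.sum_le_tsum _

theorem hHTS (hYB : StYB) : StHTS := by
  intro φ τ c hG κ u f l k x hf hf0
  obtain ⟨J₁, hJ₁⟩ : ∃ J₁ : ℤ, ∀ x, f x < (2 : ℝ) ^ (J₁ + 1) := by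
    obtain ⟨-, K, hK, -⟩ := hf
    obtain ⟨n, hn⟩ := pow_unbounded_of_one_lt K (by norm_num : (1 : ℝ) < 2)
    refine ⟨(n : ℤ) - 1, fun x => ?_⟩
    rw [sub_add_cancel, zpow_natCast]
    exact lt_of_le_of_lt ((le_abs_self _).trans (hK x)) hn
  have hone : ∀ j, ‖Zc c φ τ u 0 k j (fh l f) x‖ₑ ≤
      ENNReal.ofReal ((2 : ℝ) ^ l) * ∑' n : ℕ,
        ENNReal.ofReal ((2 : ℝ) ^ n) * ‖Zc c φ τ u 0 k j (lev f (l - 1 + n)) x‖ₑ := by
    intro j
    rw [Pool.Agent.Helper14.EQ.pig_Zc_sum hYB φ τ c hG f hf l J₁ k hJ₁ x u j]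
    refine (enorm_sum_le _ _).trans ?_
    refine (hts_sum (fun J => ‖(2 : ℝ) ^ (J + 1) * Zc c φ τ u 0 k j (lev f J) x‖ₑ) l J₁).trans ?_
    rw [← ENNReal.tsum_mul_left]
    refine ENNReal.tsum_le_tsum fun n => le_of_eq ?_
    rw [enorm_mul, ← mul_assoc, ← ENNReal.ofReal_mul (by positivity)]
    congr 1
    rw [← ofReal_norm, Real.norm_eq_abs, abs_of_pos (by positivity)]
    congr 1
    rw [← zpow_natCast, ← zpow_add₀ (by norm_num)]
    congr 1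
    ring
  have hsplit : ∀ j, ∑' n : ℕ,
        ENNReal.ofReal ((2 : ℝ) ^ n) * ‖Zc c φ τ u 0 k j (lev f (l - 1 + n)) x‖ₑ =
      (∑' n : ℕ, (if u ≤ κ * n then
        ENNReal.ofReal ((2 : ℝ) ^ n) * ‖Zc c φ τ u 0 k j (lev f (l - 1 + n)) x‖ₑ else 0)) +
      ∑' n : ℕ, (if κ * n < u then
        ENNReal.ofReal ((2 : ℝ) ^ n) * ‖Zc c φ τ u 0 k j (lev f (l - 1 + n)) x‖ₑ else 0) := by
    intro j
    rw [← ENNReal.tsum_add]
    refine tsum_congr fun n => ?_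
    by_cases h : u ≤ κ * n
    · rw [if_pos h, if_neg (not_lt.2 h), add_zero]
    · rw [if_neg h, if_pos (not_le.1 h), zero_add]
  unfold Ht HtF HtM
  calc ENNReal.ofReal (1 / (2 : ℝ) ^ u) * ∑ j ∈ Finset.range (2 ^ u), ‖Zc c φ τ u 0 k j (fh l f) x‖ₑ
      ≤ ENNReal.ofReal (1 / (2 : ℝ) ^ u) * ∑ j ∈ Finset.range (2 ^ u),
        ENNReal.ofReal ((2 : ℝ) ^ l) *
        ((∑' n : ℕ, (if u ≤ κ * n then
          ENNReal.ofReal ((2 : ℝ) ^ n) * ‖Zc c φ τ u 0 k j (lev f (l - 1 + n)) x‖ₑ else 0)) +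
        ∑' n : ℕ, (if κ * n < u then
          ENNReal.ofReal ((2 : ℝ) ^ n) * ‖Zc c φ τ u 0 k j (lev f (l - 1 + n)) x‖ₑ else 0)) := by
        gcongr with j _
        rw [← hsplit j]
        exact hone j
    _ = _ := by
        rw [← Finset.mul_sum, Finset.sum_add_distrib]
        ring

end Pool.Agent.Helper75.P3F
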